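import Pool.Agent.W845.PM.Base

set_option autoImplicit false
open scoped Classical
open Filter Topology MeasureTheory ProbabilityTheory
open scoped ENNReal NNReal BigOperators

namespace Pool.Agent.W705.PM

open Pool.Agent.W845.PM

noncomputable section

theorem part1 (h1 : S_EXT) (h2 : S_ONE) (n : ℕ) (p : ℝ) (F : SimpleGraph (Fin n) → ℝ) :
    EG (n + 1) p (fun H => F (H.comap Fin.castSucc)) = EG n p F := by
  rw [h1]
  have h3 : ∀ N : Finset (Fin n), ws n p N * EG n p (fun K => F ((ext K N).comap Fin.castSucc))
      = ws n p N * EG n p F := by
    intro N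
    congr 2
    ext K
    rw [ext_comap]
  simp only [h3]
  rw [← Finset.sum_mul, (h2 n p).2, one_mul]

theorem card_comap {n : ℕ} (s : Fin n ≃ Fin n) (G : SimpleGraph (Fin n)) :
    (G.comap s).edgeSet.ncard = G.edgeSet.ncard := by
  have := Nat.card_congr (SimpleGraph.Iso.comap s G).mapEdgeSet
  exact this

theorem part2 (n : ℕ) (s : Fin n ≃ Fin n) (p : ℝ) (F : SimpleGraph (Fin n) → ℝ) :
    EG n p (fun G => F (G.comap s)) = EG n p F := by
  unfold EG
  refine Fintype.sum_equiv s.symm.simpleGraph _ _ ?_
  intro G
  have h : s.symm.simpleGraph G = G.comap s := rfl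
  rw [h]
  unfold wt
  rw [card_comap]

theorem main (h1 : S_EXT) (h2 : S_ONE) : ∀ (n m : ℕ) (e : Fin m ↪ Fin n) (p : ℝ)
    (F : SimpleGraph (Fin m) → ℝ), EG n p (fun G => F (G.comap e)) = EG m p F := by
  intro n
  induction n with
  | zero =>
    intro m e p F
    have hm : m = 0 := by
      have := Fintype.card_le_of_embedding e
      simpa using this
    subst hm
    have he : ∀ G : SimpleGraph (Fin 0), G.comap e = G := by
      intro G
      ext a b
      exact a.elim0
    simp only [he]
  | succ n ih =>
    intro m e p F
    have hle : m ≤ n + 1 := by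
      have := Fintype.card_le_of_embedding e
      simpa using this
    rcases hle.eq_or_lt with heq | hlt
    · subst heq
      have hb : Function.Bijective e :=
        ⟨e.injective, Finite.surjective_of_injective e.injective⟩
      exact part2 _ (Equiv.ofBijective e hb) p F
    · have hns : ¬ Function.Surjective e := by
        intro hs
        have := Fintype.card_le_of_surjective e hs
        simp at this
        omega
      have hy : ∃ y, ∀ x, e x ≠ y := by
        by_contra hc
        push Not at hc
        exact hns hc
      obtain ⟨y, hy⟩ := hy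
      have hne : ∀ x, Equiv.swap y (Fin.last n) (e x) ≠ Fin.last n := by
        intro x hx
        have h3 : Equiv.swap y (Fin.last n) (e x) = Equiv.swap y (Fin.last n) y := by
          rw [hx, Equiv.swap_apply_left]
        exact hy x ((Equiv.swap y (Fin.last n)).injective h3)
      let e' : Fin m ↪ Fin n :=
        ⟨fun x => Fin.castPred (Equiv.swap y (Fin.last n) (e x)) (hne x), by
          intro a b hab
          have h4 := Fin.castPred_inj.1 hab
          exact e.injective ((Equiv.swap y (Fin.last n)).injective h4)⟩
      have he' : ∀ x, Fin.castSucc (e' x) = Equiv.swap y (Fin.last n) (e x) := by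
        intro x
        exact Fin.castSucc_castPred _ (hne x)
      have hG : ∀ G : SimpleGraph (Fin (n + 1)), G.comap e =
          ((G.comap (Equiv.swap y (Fin.last n))).comap Fin.castSucc).comap e' := by
        intro G
        ext a b
        simp only [SimpleGraph.comap_adj, he', Equiv.swap_apply_self]
      simp only [hG]
      rw [part2 (n + 1) (Equiv.swap y (Fin.last n)) p
        (fun H => F ((H.comap Fin.castSucc).comap e'))]
      rw [part1 h1 h2 n p (fun K => F (K.comap e'))]
      exact ih m e' p F

theorem com : S_EXT → S_ONE → S_COM := by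
  intro h1 h2 m n e p F
  exact main h1 h2 n m e p F

end

end Pool.Agent.W705.PM
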