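import Pool.Agent.W845.PM.Base

set_option autoImplicit false
open scoped Classical
open Filter Topology MeasureTheory ProbabilityTheory
open scoped ENNReal NNReal BigOperators

namespace Pool.Agent.W705.PM

open Pool.Agent.W845.PM

noncomputable section

/-- put the root and the subtrees together -/
def psi0 (x : ℕ × (ℕ × List ℕ → ℕ)) : Om := fun l =>
  match l with
  | [] => x.1
  | i :: l => x.2 (i, l)

theorem meas_psi0 : Measurable psi0 := by
  refine measurable_pi_iff.2 ?_
  intro l
  cases l with
  | nil => exact measurable_fst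
  | cons i l => exact (measurable_pi_apply (i, l)).comp measurable_snd

theorem meas_Phi : Measurable (fun ω : Om => (ω [], fun i : ℕ => sh i ω)) := by
  refine (measurable_pi_apply _).prodMk ?_
  refine measurable_pi_iff.2 fun i => measurable_pi_iff.2 fun l => ?_
  exact measurable_pi_apply (i :: l)

def consE : ℕ × List ℕ ↪ List ℕ := ⟨fun p => p.1 :: p.2, by
  rintro ⟨a, b⟩ ⟨c, d⟩ h
  simp only [List.cons.injEq] at h
  exact Prod.ext h.1 h.2⟩

theorem pre (s : Finset (List ℕ)) (t : List ℕ → Set ℕ) :
    psi0 ⁻¹' (Set.pi s t) =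
      (if [] ∈ s then t [] else Set.univ) ×ˢ
        (Set.pi (s.preimage consE consE.injective.injOn) (fun p => t (consE p))) := by
  ext ⟨n, F⟩
  simp only [Set.mem_preimage, Set.mem_pi, Set.mem_prod, Finset.coe_preimage, Finset.mem_coe]
  constructor
  · intro h
    refine ⟨?_, ?_⟩
    · split_ifs with h0
      · exact h [] h0
      · trivial
    · intro p hp
      exact h (p.1 :: p.2) hp
  · rintro ⟨h1, h2⟩ l hl
    cases l with
    | nil =>
      rw [if_pos hl] at h1
      exact h1
    | cons i l => exact h2 (i, l) hl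

theorem prod_split (s : Finset (List ℕ)) (f : List ℕ → ℝ≥0∞) :
    ∏ l ∈ s, f l = (if [] ∈ s then f [] else 1) *
      ∏ p ∈ s.preimage consE consE.injective.injOn, f (consE p) := by
  have h1 : ∏ p ∈ s.preimage consE consE.injective.injOn, f (consE p) =
      ∏ l ∈ s.filter (fun l => l ≠ []), f l := by
    rw [← Finset.prod_map (s.preimage consE consE.injective.injOn) consE f]
    congr 1
    ext l
    simp only [Finset.mem_map, Finset.mem_preimage, Finset.mem_filter]
    constructor
    · rintro ⟨p, hp, rfl⟩
      exact ⟨hp, List.cons_ne_nil _ _⟩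
    · rintro ⟨h, h'⟩
      cases l with
      | nil => exact absurd rfl h'
      | cons i l => exact ⟨(i, l), h, rfl⟩
  rw [h1]
  by_cases h0 : [] ∈ s
  · rw [if_pos h0, ← Finset.mul_prod_erase s f h0]
    congr 2
    ext l
    simp only [Finset.mem_erase, Finset.mem_filter]
    tauto
  · rw [if_neg h0, one_mul]
    congr 1
    ext l
    simp only [Finset.mem_filter]
    refine ⟨fun h => ⟨h, ?_⟩, fun h => h.1⟩
    rintro rfl
    exact h0 h

theorem Pm_eq (c : ℝ≥0) :
    ((poissonMeasure c).prod
      (Measure.infinitePi (fun _ : ℕ × List ℕ => poissonMeasure c))).map psi0 = Pm c := by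
  unfold Pm
  apply Measure.eq_infinitePi
  intro s t ht
  rw [Measure.map_apply meas_psi0 (.pi s.countable_toSet fun _ _ => ht _), pre, Measure.prod_prod,
    Measure.infinitePi_pi _ (fun i _ => ht _), prod_split]
  congr 1
  split_ifs
  · rfl
  · exact measure_univ

theorem split : S_SPLIT := by
  intro c
  have h1 : Measure.infinitePi (fun _ : ℕ => Pm c) =
      (Measure.infinitePi (fun _ : ℕ × List ℕ => poissonMeasure c)).map
        (MeasurableEquiv.curry ℕ (List ℕ) ℕ) := by
    have := Measure.infinitePi_map_curry (fun (_ : ℕ) (_ : List ℕ) => poissonMeasure c)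
    rw [this]
    rfl
  rw [h1, ← Pm_eq c, Measure.map_map meas_Phi meas_psi0]
  have h2 := Measure.map_prod_map (poissonMeasure c)
    (Measure.infinitePi (fun _ : ℕ × List ℕ => poissonMeasure c)) measurable_id
    (MeasurableEquiv.curry ℕ (List ℕ) ℕ).measurable
  rw [Measure.map_id] at h2
  rw [h2]
  rfl

end

end Pool.Agent.W705.PM
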